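import Pool.Agent.helper20.Sz.Sys

/-!
# SZ-R1: rotation of words
-/

namespace Pool.Agent.helper20.Sz

set_option linter.unusedSectionVars false

namespace R1

section setlem

variable {E : Type} [Fintype E] [DecidableEq E]

theorem rr_sub {D D' : Finset E} (h : D ⊆ D') : rr D D' = D' \ D := if_pos h

theorem rr_not {D D' : Finset E} (h : ¬ D ⊆ D') : rr D D' = D' ∪ Dᶜ := if_neg h

theorem mem_rho {D : Finset E} {𝒟 : Finset (Finset E)} {F : Finset E} :
    F ∈ rho D 𝒟 ↔ F = Dᶜ ∨ ∃ D' ∈ 𝒟, D' ≠ D ∧ rr D D' = F := by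
  simp only [rho, Finset.mem_insert, Finset.mem_image, Finset.mem_erase]
  constructor
  · rintro (h | ⟨D', ⟨h1, h2⟩, h3⟩)
    · exact Or.inl h
    · exact Or.inr ⟨D', h2, h1, h3⟩
  · rintro (h | ⟨D', h1, h2, h3⟩)
    · exact Or.inl h
    · exact Or.inr ⟨D', ⟨h2, h1⟩, h3⟩

/-- the inverse of `rr D` -/
theorem rr_rr_compl {D D' : Finset E} (ht : D' ≠ Finset.univ) (hc : D ⊆ D' ∨ D' ⊆ D) :
    rr Dᶜ (rr D D') = D' := by
  by_cases h : D ⊆ D'
  · rw [rr_sub h]
    have h1 : ¬ Dᶜ ⊆ D' \ D := by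
      intro h2
      apply ht
      rw [Finset.eq_univ_iff_forall]
      intro x
      by_cases hx : x ∈ D
      · exact h hx
      · exact (Finset.mem_sdiff.mp (h2 (Finset.mem_compl.mpr hx))).1
    rw [rr_not h1]
    ext x
    simp only [Finset.mem_union, Finset.mem_sdiff, Finset.mem_compl, not_not]
    constructor
    · rintro (h2 | h2)
      · exact h2.1
      · exact h h2
    · intro h2
      by_cases hx : x ∈ D
      · exact Or.inr hx
      · exact Or.inl ⟨h2, hx⟩
  · have h' : D' ⊆ D := hc.resolve_left h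
    rw [rr_not h, rr_sub Finset.subset_union_right]
    ext x
    simp only [Finset.mem_union, Finset.mem_sdiff, Finset.mem_compl, not_not]
    constructor
    · rintro ⟨h1 | h1, h2⟩
      · exact h1
      · exact absurd h2 h1
    · intro h1
      exact ⟨Or.inl h1, h' h1⟩

/-- `rr D D' ≠ Dᶜ` -/
theorem rr_ne_compl {D D' : Finset E} (hn : D'.Nonempty) (ht : D' ≠ Finset.univ)
    (hc : D ⊆ D' ∨ D' ⊆ D) : rr D D' ≠ Dᶜ := by
  intro h
  have h1 := rr_rr_compl ht hc
  rw [h] at h1
  have h2 : rr Dᶜ Dᶜ = ∅ := by rw [rr_sub (Finset.Subset.refl _), sdiff_self]; rfl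
  rw [h2] at h1
  rw [← h1] at hn
  exact Finset.not_nonempty_empty hn

theorem rr_compl_self {D D' : Finset E} (hne : D' ≠ D) (hc : D ⊆ D' ∨ D' ⊆ D) :
    (rr D D')ᶜ = rr D' D := by
  by_cases h : D ⊆ D'
  · have h' : ¬ D' ⊆ D := fun h2 => hne (Finset.Subset.antisymm h2 h)
    rw [rr_sub h, rr_not h']
    ext x
    simp only [Finset.mem_union, Finset.mem_sdiff, Finset.mem_compl]
    tauto
  · have h' : D' ⊆ D := hc.resolve_left h
    rw [rr_not h, rr_sub h']
    ext x
    simp only [Finset.mem_union, Finset.mem_sdiff, Finset.mem_compl]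
    tauto

theorem rr_base {D D' : Finset E} (hn : D'.Nonempty) (hc : D ⊆ D' ∨ D' ⊆ D) :
    rr (rr D D') Dᶜ = D'ᶜ := by
  by_cases h : D ⊆ D'
  · rw [rr_sub h, rr_sub (by
      intro x hx
      rw [Finset.mem_compl]
      exact (Finset.mem_sdiff.mp hx).2)]
    ext x
    simp only [Finset.mem_sdiff, Finset.mem_compl]
    constructor
    · rintro ⟨h1, h2⟩ h3
      exact h2 ⟨h3, h1⟩
    · intro h1
      exact ⟨fun h2 => h1 (h h2), fun h2 => h1 h2.1⟩
  · have h' : D' ⊆ D := hc.resolve_left h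
    have h2 : ¬ D' ∪ Dᶜ ⊆ Dᶜ := by
      intro h3
      obtain ⟨x, hx⟩ := hn
      have := h3 (Finset.mem_union_left _ hx)
      exact (Finset.mem_compl.mp this) (h' hx)
    rw [rr_not h, rr_not h2]
    ext x
    simp only [Finset.mem_union, Finset.mem_compl]
    constructor
    · rintro (h3 | h3) h4
      · exact h3 (h' h4)
      · exact h3 (Or.inl h4)
    · intro h3
      by_cases hx : x ∈ D
      · right
        rintro (h4 | h4)
        · exact h3 h4
        · exact h4 hx
      · exact Or.inl hx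

theorem rr_triple {D D' D'' : Finset E} (hn' : D'.Nonempty)
    (h01 : D ⊆ D' ∨ D' ⊆ D) (h02 : D ⊆ D'' ∨ D'' ⊆ D) (h12 : D' ⊆ D'' ∨ D'' ⊆ D') :
    rr (rr D D') (rr D D'') = rr D' D'' := by
  by_cases a : D ⊆ D'
  · by_cases b : D ⊆ D''
    · rw [rr_sub a, rr_sub b]
      by_cases c : D' ⊆ D''
      · rw [rr_sub c, rr_sub (Finset.sdiff_subset_sdiff c (Finset.Subset.refl _))]
        ext x
        simp only [Finset.mem_sdiff]
        have := @a x
        tauto
      · have h1 : ¬ D' \ D ⊆ D'' \ D := by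
          intro h2
          apply c
          intro x hx
          by_cases hx2 : x ∈ D
          · exact b hx2
          · exact (Finset.mem_sdiff.mp (h2 (Finset.mem_sdiff.mpr ⟨hx, hx2⟩))).1
        rw [rr_not c, rr_not h1]
        ext x
        simp only [Finset.mem_sdiff, Finset.mem_union, Finset.mem_compl]
        have h2 := @a x
        have h3 := @b x
        have h5 := h12.resolve_left c
        have h4 := @h5 x
        tauto
    · have b' : D'' ⊆ D := h02.resolve_left b
      have c : ¬ D' ⊆ D'' := fun h => b (a.trans h)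
      rw [rr_sub a, rr_not b, rr_not c, rr_sub (by
        intro x hx
        exact Finset.mem_union_right _ (Finset.mem_compl.mpr (Finset.mem_sdiff.mp hx).2))]
      ext x
      simp only [Finset.mem_sdiff, Finset.mem_union, Finset.mem_compl]
      have h2 := @a x
      have h3 := @b' x
      tauto
  · have a' : D' ⊆ D := h01.resolve_left a
    by_cases b : D ⊆ D''
    · have c : D' ⊆ D'' := a'.trans b
      have h1 : ¬ D' ∪ Dᶜ ⊆ D'' \ D := by
        intro h2
        obtain ⟨x, hx⟩ := hn'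
        exact (Finset.mem_sdiff.mp (h2 (Finset.mem_union_left _ hx))).2 (a' hx)
      rw [rr_not a, rr_sub b, rr_sub c, rr_not h1]
      ext x
      simp only [Finset.mem_sdiff, Finset.mem_union, Finset.mem_compl]
      have h2 := @a' x
      have h3 := @b x
      tauto
    · have b' : D'' ⊆ D := h02.resolve_left b
      rw [rr_not a, rr_not b]
      by_cases c : D' ⊆ D''
      · rw [rr_sub c, rr_sub (Finset.union_subset_union c (Finset.Subset.refl _))]
        ext x
        simp only [Finset.mem_sdiff, Finset.mem_union, Finset.mem_compl]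
        have h2 := @b' x
        tauto
      · have h1 : ¬ D' ∪ Dᶜ ⊆ D'' ∪ Dᶜ := by
          intro h2
          apply c
          intro x hx
          rcases Finset.mem_union.mp (h2 (Finset.mem_union_left _ hx)) with h3 | h3
          · exact h3
          · exact absurd (a' hx) (Finset.mem_compl.mp h3)
        rw [rr_not c, rr_not h1]
        ext x
        simp only [Finset.mem_union, Finset.mem_compl]
        have h2 := @a' x
        have h3 := @b' x
        have h5 := h12.resolve_left c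
        have h4 := @h5 x
        tauto

end setlem

variable {X E : Type} [DecidableEq X] [Fintype E] [DecidableEq E] {K : Cube X E}

theorem valid_rho {v : Finset X} {𝒟 : Finset (Finset E)} (h : K.Valid v 𝒟) {D : Finset E}
    (hD : D ∈ 𝒟) : K.Valid v (rho D 𝒟) := by
  have hDn := h.ne D hD
  have hDt := h.top D hD
  refine ⟨fun F hF => ?_, fun F hF => ?_, fun F hF => ?_, fun F hF F' hF' => ?_⟩
  · rcases mem_rho.mp hF with rfl | ⟨D', hD', hne, rfl⟩
    · rw [Finset.nonempty_iff_ne_empty]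
      intro h0
      exact hDt ((Finset.compl_eq_empty_iff D).mp h0)
    · by_cases hs : D ⊆ D'
      · rw [rr_sub hs, Finset.nonempty_iff_ne_empty]
        intro h0
        exact hne (Finset.Subset.antisymm (Finset.sdiff_eq_empty_iff_subset.mp h0) hs)
      · rw [rr_not hs]
        obtain ⟨x, hx⟩ := h.ne D' hD'
        exact ⟨x, Finset.mem_union_left _ hx⟩
  · rcases mem_rho.mp hF with rfl | ⟨D', hD', hne, rfl⟩
    · intro h0
      obtain ⟨x, hx⟩ := hDn
      have : x ∈ Dᶜ := by rw [h0]; exact Finset.mem_univ x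
      exact Finset.mem_compl.mp this hx
    · by_cases hs : D ⊆ D'
      · rw [rr_sub hs]
        intro h0
        obtain ⟨x, hx⟩ := hDn
        have : x ∈ D' \ D := by rw [h0]; exact Finset.mem_univ x
        exact (Finset.mem_sdiff.mp this).2 hx
      · rw [rr_not hs]
        intro h0
        apply hs
        intro x hx
        have : x ∈ D' ∪ Dᶜ := by rw [h0]; exact Finset.mem_univ x
        rcases Finset.mem_union.mp this with h3 | h3
        · exact h3
        · exact absurd hx (Finset.mem_compl.mp h3)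
  · intro x y hxy
    have hs := h.sat D hD x y hxy
    rcases mem_rho.mp hF with rfl | ⟨D', hD', hne, rfl⟩
    · rw [Finset.mem_compl, Finset.mem_compl, hs]
    · have hs' := h.sat D' hD' x y hxy
      by_cases hs2 : D ⊆ D'
      · rw [rr_sub hs2, Finset.mem_sdiff, Finset.mem_sdiff, hs, hs']
      · rw [rr_not hs2, Finset.mem_union, Finset.mem_union, Finset.mem_compl,
          Finset.mem_compl, hs, hs']
  · have key : ∀ D' ∈ 𝒟, D' ≠ D → rr D D' ⊆ Dᶜ ∨ Dᶜ ⊆ rr D D' := by
      intro D' hD' hne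
      by_cases hs : D ⊆ D'
      · left
        rw [rr_sub hs]
        intro x hx
        exact Finset.mem_compl.mpr (Finset.mem_sdiff.mp hx).2
      · right
        rw [rr_not hs]
        exact Finset.subset_union_right
    rcases mem_rho.mp hF with rfl | ⟨D', hD', hne, rfl⟩
    · rcases mem_rho.mp hF' with rfl | ⟨D'', hD'', hne', rfl⟩
      · exact Or.inl (Finset.Subset.refl _)
      · exact (key D'' hD'' hne').symm
    · rcases mem_rho.mp hF' with rfl | ⟨D'', hD'', hne', rfl⟩
      · exact key D' hD' hne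
      · have h12 := h.chain D' hD' D'' hD''
        by_cases a : D ⊆ D' <;> by_cases b : D ⊆ D''
        · rw [rr_sub a, rr_sub b]
          rcases h12 with h3 | h3
          · exact Or.inl (Finset.sdiff_subset_sdiff h3 (Finset.Subset.refl _))
          · exact Or.inr (Finset.sdiff_subset_sdiff h3 (Finset.Subset.refl _))
        · rw [rr_sub a, rr_not b]
          left
          intro x hx
          exact Finset.mem_union_right _ (Finset.mem_compl.mpr (Finset.mem_sdiff.mp hx).2)
        · rw [rr_not a, rr_sub b]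
          right
          intro x hx
          exact Finset.mem_union_right _ (Finset.mem_compl.mpr (Finset.mem_sdiff.mp hx).2)
        · rw [rr_not a, rr_not b]
          rcases h12 with h3 | h3
          · exact Or.inl (Finset.union_subset_union h3 (Finset.Subset.refl _))
          · exact Or.inr (Finset.union_subset_union h3 (Finset.Subset.refl _))

theorem rr_inj {v : Finset X} {𝒟 : Finset (Finset E)} (h : K.Valid v 𝒟) {D : Finset E}
    (hD : D ∈ 𝒟) : Set.InjOn (rr D) (𝒟 : Set (Finset E)) := by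
  intro D1 h1 D2 h2 h3
  have e1 := rr_rr_compl (h.top D1 h1) (h.chain D hD D1 h1)
  have e2 := rr_rr_compl (h.top D2 h2) (h.chain D hD D2 h2)
  rw [← e1, ← e2, h3]

theorem card_rho {v : Finset X} {𝒟 : Finset (Finset E)} (h : K.Valid v 𝒟) {D : Finset E}
    (hD : D ∈ 𝒟) : (rho D 𝒟).card = 𝒟.card := by
  unfold rho
  rw [Finset.card_insert_of_notMem, Finset.card_image_of_injOn, Finset.card_erase_of_mem hD]
  · have := Finset.card_pos.mpr ⟨D, hD⟩
    omega
  · exact (rr_inj h hD).mono (by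
      intro x hx
      exact Finset.mem_of_mem_erase hx)
  · intro h1
    obtain ⟨D', h2, h3⟩ := Finset.mem_image.mp h1
    have h4 := Finset.mem_of_mem_erase h2
    exact rr_ne_compl (h.ne D' h4) (h.top D' h4) (h.chain D hD D' h4) h3

theorem rho_compl {v : Finset X} {𝒟 : Finset (Finset E)} (h : K.Valid v 𝒟) {D : Finset E}
    (hD : D ∈ 𝒟) : Dᶜ ∈ rho D 𝒟 ∧ rho Dᶜ (rho D 𝒟) = 𝒟 := by
  refine ⟨mem_rho.mpr (Or.inl rfl), ?_⟩
  ext F
  rw [mem_rho]
  constructor
  · rintro (rfl | ⟨D', hD', hne, rfl⟩)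
    · rw [compl_compl]; exact hD
    · rcases mem_rho.mp hD' with h1 | ⟨D'', h1, h2, rfl⟩
      · exact absurd h1 hne
      · rw [rr_rr_compl (h.top D'' h1) (h.chain D hD D'' h1)]
        exact h1
  · intro hF
    by_cases hFD : F = D
    · left
      rw [compl_compl]; exact hFD
    · right
      exact ⟨rr D F, mem_rho.mpr (Or.inr ⟨F, hF, hFD, rfl⟩),
        rr_ne_compl (h.ne F hF) (h.top F hF) (h.chain D hD F hF),
        rr_rr_compl (h.top F hF) (h.chain D hD F hF)⟩

theorem rho_rr {v : Finset X} {𝒟 : Finset (Finset E)} (h : K.Valid v 𝒟) {D D' : Finset E}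
    (hD : D ∈ 𝒟) (hD' : D' ∈ 𝒟) (hne : D' ≠ D) :
    rr D D' ∈ rho D 𝒟 ∧ rho (rr D D') (rho D 𝒟) = rho D' 𝒟 := by
  refine ⟨mem_rho.mpr (Or.inr ⟨D', hD', hne, rfl⟩), ?_⟩
  have h01 := h.chain D hD D' hD'
  have hn' := h.ne D' hD'
  have hbase := rr_base hn' h01
  have hself := rr_compl_self hne h01
  have htrip : ∀ D'' ∈ 𝒟, D'' ≠ D → D'' ≠ D' → rr (rr D D') (rr D D'') = rr D' D'' :=
    fun D'' h1 _ _ => rr_triple hn' h01 (h.chain D hD D'' h1) (h.chain D' hD' D'' h1)
  ext F
  rw [mem_rho, mem_rho]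
  constructor
  · rintro (rfl | ⟨G, hG, hne2, rfl⟩)
    · right
      exact ⟨D, hD, fun e => hne e.symm, hself.symm⟩
    · rcases mem_rho.mp hG with rfl | ⟨D'', h1, h2, rfl⟩
      · left
        exact hbase
      · right
        have h3 : D'' ≠ D' := fun e => hne2 (by rw [e])
        exact ⟨D'', h1, h3, (htrip D'' h1 h2 h3).symm⟩
  · rintro (rfl | ⟨D'', h1, h3, rfl⟩)
    · right
      exact ⟨Dᶜ, mem_rho.mpr (Or.inl rfl),
        (rr_ne_compl hn' (h.top D' hD') h01).symm, hbase⟩
    · by_cases h2 : D'' = D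
      · left
        rw [h2]
        exact hself.symm
      · right
        refine ⟨rr D D'', mem_rho.mpr (Or.inr ⟨D'', h1, h2, rfl⟩), ?_, htrip D'' h1 h2 h3⟩
        intro e
        exact h3 (rr_inj h hD h1 hD' e)

theorem rho_insert {v : Finset X} {𝒟 : Finset (Finset E)} {D D' : Finset E}
    (h : K.Valid v (insert D' 𝒟)) (hD : D ∈ 𝒟) (hne : D' ∉ 𝒟) :
    rho D (insert D' 𝒟) = insert (rr D D') (rho D 𝒟) ∧ rr D D' ∉ rho D 𝒟 := by
  have hDD' : D' ≠ D := fun e => hne (e ▸ hD)
  have hD1 : D ∈ insert D' 𝒟 := Finset.mem_insert_of_mem hD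
  have hD1' : D' ∈ insert D' 𝒟 := Finset.mem_insert_self _ _
  constructor
  · unfold rho
    rw [Finset.erase_insert_of_ne hDD', Finset.image_insert, Finset.insert_comm]
  · intro hm
    rcases mem_rho.mp hm with h1 | ⟨D'', h1, h2, h3⟩
    · exact rr_ne_compl (h.ne D' hD1') (h.top D' hD1') (h.chain D hD1 D' hD1') h1
    · have := rr_inj h hD1 (Finset.mem_coe.mpr (Finset.mem_insert_of_mem h1))
        (Finset.mem_coe.mpr hD1') h3
      exact hne (this ▸ h1)

theorem nsep_rho {v : Finset X} {𝒟 : Finset (Finset E)} (h : K.Valid v 𝒟) {D : Finset E}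
    (hD : D ∈ 𝒟) (c : X) : K.Nsep (rho D 𝒟) c ↔ K.Nsep 𝒟 c := by
  constructor
  · intro hs D' hD'
    have h1 := hs Dᶜ (mem_rho.mpr (Or.inl rfl))
    rw [Finset.mem_compl, Finset.mem_compl, not_iff_not] at h1
    by_cases hne : D' = D
    · rw [hne]; exact h1
    · have h2 := hs (rr D D') (mem_rho.mpr (Or.inr ⟨D', hD', hne, rfl⟩))
      by_cases a : D ⊆ D'
      · rw [rr_sub a, Finset.mem_sdiff, Finset.mem_sdiff, h1] at h2
        have h3 := @a (K.tail c)
        have h4 := @a (K.head c)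
        tauto
      · have a' := (h.chain D hD D' hD').resolve_left a
        rw [rr_not a, Finset.mem_union, Finset.mem_union, Finset.mem_compl, Finset.mem_compl,
          h1] at h2
        have h3 := @a' (K.tail c)
        have h4 := @a' (K.head c)
        tauto
  · intro hs F hF
    have h1 := hs D hD
    rcases mem_rho.mp hF with rfl | ⟨D', hD', hne, rfl⟩
    · rw [Finset.mem_compl, Finset.mem_compl, h1]
    · have h2 := hs D' hD'
      by_cases a : D ⊆ D'
      · rw [rr_sub a, Finset.mem_sdiff, Finset.mem_sdiff, h1, h2]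
      · rw [rr_not a, Finset.mem_union, Finset.mem_union, Finset.mem_compl, Finset.mem_compl,
          h1, h2]

theorem exists_nrm {v : Finset X} {𝒟 : Finset (Finset E)} (h : K.Valid v 𝒟) (P : E)
    (hn : ¬ Nrm P 𝒟) : ∃ D ∈ 𝒟, Nrm P (rho D 𝒟) := by
  have hne : (𝒟.filter fun D => P ∉ D).Nonempty := by
    unfold Nrm at hn
    push Not at hn
    obtain ⟨D, h1, h2⟩ := hn
    exact ⟨D, Finset.mem_filter.mpr ⟨h1, h2⟩⟩
  obtain ⟨D, hD, hmax⟩ := Finset.exists_max_image _ Finset.card hne
  rw [Finset.mem_filter] at hD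
  refine ⟨D, hD.1, fun F hF => ?_⟩
  rcases mem_rho.mp hF with rfl | ⟨D', hD', hne', rfl⟩
  · exact Finset.mem_compl.mpr hD.2
  · by_cases a : D ⊆ D'
    · rw [rr_sub a, Finset.mem_sdiff]
      refine ⟨?_, hD.2⟩
      by_contra hP
      have h1 := hmax D' (Finset.mem_filter.mpr ⟨hD', hP⟩)
      exact hne' (Finset.eq_of_subset_of_card_le a h1).symm
    · rw [rr_not a]
      exact Finset.mem_union_right _ (Finset.mem_compl.mpr hD.2)

theorem nrm_unique {v : Finset X} {𝒟 : Finset (Finset E)} (h : K.Valid v 𝒟) (P : E)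
    {D D' : Finset E} (hD : D ∈ 𝒟) (hD' : D' ∈ 𝒟) (h1 : Nrm P (rho D 𝒟))
    (h2 : Nrm P (rho D' 𝒟)) : D = D' := by
  by_contra hne
  have p1 : P ∉ D := Finset.mem_compl.mp (h1 Dᶜ (mem_rho.mpr (Or.inl rfl)))
  have p2 : P ∉ D' := Finset.mem_compl.mp (h2 D'ᶜ (mem_rho.mpr (Or.inl rfl)))
  rcases h.chain D hD D' hD' with hs | hs
  · have h3 := h1 (rr D D') (mem_rho.mpr (Or.inr ⟨D', hD', fun e => hne e.symm, rfl⟩))
    rw [rr_sub hs] at h3
    exact p2 (Finset.mem_sdiff.mp h3).1
  · have h3 := h2 (rr D' D) (mem_rho.mpr (Or.inr ⟨D, hD, hne, rfl⟩))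
    rw [rr_sub hs] at h3
    exact p1 (Finset.mem_sdiff.mp h3).1

theorem not_nrm_rho {𝒟 : Finset (Finset E)} (P : E)
    (hn : Nrm P 𝒟) {D : Finset E} (hD : D ∈ 𝒟) : ¬ Nrm P (rho D 𝒟) := by
  intro h
  exact Finset.mem_compl.mp (h Dᶜ (mem_rho.mpr (Or.inl rfl))) (hn D hD)

/-- two rotation invariant functions on valid words which agree on normal words are equal -/
theorem rot_ext (P : E) {φ ψ : W X E} (h1 : K.Supp φ) (h2 : K.Supp ψ) (h3 : K.Rot φ)
    (h4 : K.Rot ψ) (h : ∀ v 𝒟, K.Valid v 𝒟 → Nrm P 𝒟 → φ v 𝒟 = ψ v 𝒟) : φ = ψ := by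
  funext v 𝒟
  by_cases hv : K.Valid v 𝒟
  · by_cases hn : Nrm P 𝒟
    · exact h v 𝒟 hv hn
    · obtain ⟨D, hD, hn'⟩ := exists_nrm hv P hn
      rw [← h3 v 𝒟 D hv hD, ← h4 v 𝒟 D hv hD]
      exact h v _ (valid_rho hv hD) hn'
  · have e1 : φ v 𝒟 = 0 := by
      by_contra h0
      exact hv (h1 v 𝒟 h0)
    have e2 : ψ v 𝒟 = 0 := by
      by_contra h0
      exact hv (h2 v 𝒟 h0)
    rw [e1, e2]

end R1

end Pool.Agent.helper20.Sz
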