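import Pool.Agent.helper37.Sz.A2
import Pool.Agent.helper20.Sz.Sys

/-!
# SZ-A1: adding a crossingless component
-/

open scoped symmDiff

namespace Pool.Agent.helper20.Sz

set_option linter.unusedSectionVars false

namespace A1

variable {X E : Type} [DecidableEq X] {K : Cube X E} {eta : X → Bool}

section basic

theorem same_some (v : Finset X) (x y : E) :
    K.addPoint.same v (some x) (some y) ↔ K.same v x y := Iff.rfl

theorem same_none (v : Finset X) : K.addPoint.same v none none := trivial

theorem not_same_left (v : Finset X) (x : E) : ¬ K.addPoint.same v (some x) none := fun h => h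

theorem not_same_right (v : Finset X) (x : E) : ¬ K.addPoint.same v none (some x) := fun h => h

theorem tail_eq (c : X) : K.addPoint.tail c = some (K.tail c) := rfl

theorem head_eq (c : X) : K.addPoint.head c = some (K.head c) := rfl

end basic

theorem isSys (hK : K.IsSys eta) : K.addPoint.IsSys eta where
  eqv v := by
    have h := hK.eqv v
    refine ⟨fun x => ?_, fun {x y} hxy => ?_, fun {x y z} hxy hyz => ?_⟩
    · cases x with
      | none => exact same_none v
      | some x => exact h.refl x
    · cases x with
      | none =>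
        cases y with
        | none => exact same_none v
        | some y => exact hxy.elim
      | some x =>
        cases y with
        | none => exact hxy.elim
        | some y => exact h.symm hxy
    · cases x with
      | none =>
        cases y with
        | none => exact hyz
        | some y => exact hxy.elim
      | some x =>
        cases y with
        | none => exact hxy.elim
        | some y =>
          cases z with
          | none => exact hyz.elim
          | some z => exact h.trans hxy hyz
  split v c h := hK.split v c h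
  merge v c h x y := by
    cases x with
    | none =>
      cases y with
      | none => exact ⟨fun _ => Or.inl (same_none v), fun _ => same_none _⟩
      | some y =>
        refine ⟨fun h => h.elim, ?_⟩
        rintro (h | ⟨h, -⟩ | ⟨h, -⟩)
        · exact h
        · exact h
        · exact h
    | some x =>
      cases y with
      | none =>
        refine ⟨fun h => h.elim, ?_⟩
        rintro (h | ⟨-, h⟩ | ⟨-, h⟩)
        · exact h
        · exact h
        · exact h
      | some y => exact hK.merge v c h x y
  tele := by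
    classical
    intro v G f hf z
    cases z with
    | none =>
      apply Finset.sum_eq_zero
      intro c _
      have h1 : ¬ K.addPoint.same v (K.addPoint.tail c) none := fun h => h
      have h2 : ¬ K.addPoint.same v (K.addPoint.head c) none := fun h => h
      rw [if_neg h1, if_neg h2]
      simp
    | some z =>
      exact hK.tele v G (fun x => f (some x)) (fun x y h => hf (some x) (some y) h) z
  side2 v c c' h1 h2 h3 := hK.side2 v c c' h1 h2 h3
  side1 v c c' h0 h1 h2 h3 h4 := hK.side1 v c c' h0 h1 h2 h3 h4

/-! ### generators -/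

/-- restriction of a generator -/
def res (a : K.addPoint.Gen) : K.Gen where
  v := a.v
  s := fun x => a.s (some x)
  inv := fun x y h => a.inv (some x) (some y) h

/-- extension of a generator by a label of the new circle -/
def ext (a : K.Gen) (l : Bool) : K.addPoint.Gen where
  v := a.v
  s := fun x => match x with
    | none => l
    | some x => a.s x
  inv := fun x y h => match x, y, h with
    | some x, some y, h => a.inv x y h
    | none, none, _ => rfl

theorem res_ext (a : K.Gen) (l : Bool) : res (ext a l) = a := rfl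

theorem ext_res (a : K.addPoint.Gen) : ext (res a) (a.s none) = a := by
  have h : (ext (res a) (a.s none)).s = a.s := by
    funext x
    cases x with
    | none => rfl
    | some x => rfl
  have hv : (ext (res a) (a.s none)).v = a.v := rfl
  cases a with
  | mk v s inv =>
    simp only [ext, res] at h hv ⊢
    congr

theorem par_iff (v G : Finset X) : K.addPoint.Par v G ↔ K.Par v G := by
  constructor
  · rintro ⟨hne, a, b, hab, h⟩
    refine ⟨hne, ?_⟩
    obtain ⟨g, hg⟩ := hne
    have hg1 := h g hg
    cases a with
    | none => exact hg1.1.elim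
    | some a =>
      cases b with
      | none => exact hg1.2.elim
      | some b => exact ⟨a, b, hab, h⟩
  · rintro ⟨hne, a, b, hab, h⟩
    exact ⟨hne, some a, some b, hab, h⟩

theorem crs_iff (s0 : Bool) (v : Finset X) (e f : X) :
    K.addPoint.Crs s0 v e f ↔ K.Crs s0 v e f := Iff.rfl

theorem ac_iff (s0 : Bool) (v G : Finset X) : K.addPoint.AC s0 v G ↔ K.AC s0 v G := by
  unfold Cube.AC
  rw [par_iff]
  rfl

theorem star_iff (tl hd : X → E) (a b : K.addPoint.Gen) (hab : a.v ⊂ b.v) :
    K.addPoint.Star (fun c => some (tl c)) (fun c => some (hd c)) a b ↔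
      a.s none = b.s none ∧ K.Star tl hd (res a) (res b) := by
  have hne : (b.v \ a.v).Nonempty := by
    rw [Finset.nonempty_iff_ne_empty]
    intro h
    exact hab.2 (Finset.sdiff_eq_empty_iff_subset.mp h)
  constructor
  · rintro ⟨z, h1, h2, h3, h4⟩
    cases z with
    | none =>
      obtain ⟨g, hg⟩ := hne
      exact (h3 g hg).1.elim
    | some z =>
      refine ⟨?_, z, h1, fun x => h2 (some x), h3, h4⟩
      by_contra hc
      exact ((h2 none).mp hc).1
  · rintro ⟨h0, z, h1, h2, h3, h4⟩
    refine ⟨some z, h1, fun x => ?_, h3, h4⟩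
    cases x with
    | none =>
      constructor
      · intro h; exact absurd h0 h
      · intro h; exact h.1.elim
    | some x => exact h2 x

theorem coef_iff (s0 : Bool) (a b : K.addPoint.Gen) :
    K.addPoint.Coef s0 a b ↔ a.s none = b.s none ∧ K.Coef s0 (res a) (res b) := by
  have hall : (∀ x, a.s x = b.s x) ↔ a.s none = b.s none ∧ ∀ x, a.s (some x) = b.s (some x) :=
    ⟨fun h => ⟨h none, fun x => h (some x)⟩, fun h x => by
      cases x with
      | none => exact h.1
      | some x => exact h.2 x⟩
  unfold Cube.Coef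
  by_cases hab : a.v ⊂ b.v
  · have e1 := star_iff K.tail K.head a b hab
    have e2 := star_iff K.head K.tail a b hab
    have e1' : K.addPoint.Star K.addPoint.tail K.addPoint.head a b ↔
      a.s none = b.s none ∧ K.Star K.tail K.head (res a) (res b) := e1
    have e2' : K.addPoint.Star K.addPoint.head K.addPoint.tail a b ↔
      a.s none = b.s none ∧ K.Star K.head K.tail (res a) (res b) := e2
    rw [e1', e2', hall, ac_iff, ac_iff]
    constructor
    · rintro ⟨-, ⟨⟨h1, h2⟩, h3, h4⟩ | ⟨⟨h1, h2⟩, h3, h4⟩ | ⟨h1, h2⟩ | ⟨h1, h2⟩⟩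
      · exact ⟨h1, hab, Or.inl ⟨h2, h3, h4⟩⟩
      · exact ⟨h1, hab, Or.inr (Or.inl ⟨h2, h3, h4⟩)⟩
      · exact ⟨h1, hab, Or.inr (Or.inr (Or.inl h2))⟩
      · exact ⟨h1, hab, Or.inr (Or.inr (Or.inr h2))⟩
    · rintro ⟨h1, -, ⟨h2, h3, h4⟩ | ⟨h2, h3, h4⟩ | h2 | h2⟩
      · exact ⟨hab, Or.inl ⟨⟨h1, h2⟩, h3, h4⟩⟩
      · exact ⟨hab, Or.inr (Or.inl ⟨⟨h1, h2⟩, h3, h4⟩)⟩
      · exact ⟨hab, Or.inr (Or.inr (Or.inl ⟨h1, h2⟩))⟩
      · exact ⟨hab, Or.inr (Or.inr (Or.inr ⟨h1, h2⟩))⟩
  · constructor
    · rintro ⟨h, -⟩; exact absurd h hab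
    · rintro ⟨-, h, -⟩; exact absurd h hab

/-! ### counting circles -/

/-- circles of `addPoint` -/
def quotEquiv (K : Cube X E) (v : Finset X) :
    Quot (K.addPoint.same v) ≃ Option (Quot (K.same v)) where
  toFun := Quot.lift (fun x => match x with
    | none => none
    | some x => some (Quot.mk _ x)) (by
      intro x y h
      cases x with
      | none =>
        cases y with
        | none => rfl
        | some y => exact h.elim
      | some x =>
        cases y with
        | none => exact h.elim
        | some y => exact congrArg some (Quot.sound h))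
  invFun := fun o => match o with
    | none => Quot.mk _ none
    | some z => Quot.map some (fun _ _ h => h) z
  left_inv := by
    rintro ⟨x⟩
    cases x with
    | none => rfl
    | some x => rfl
  right_inv := by
    intro o
    cases o with
    | none => rfl
    | some z =>
      obtain ⟨x⟩ := z
      rfl

theorem card_opt {α : Type} [Finite α] (p : Option α → Prop) [Decidable (p none)] :
    Nat.card {o // p o} = Nat.card {a // p (some a)} + (if p none then 1 else 0) := by
  by_cases h : p none
  · rw [if_pos h, ← Finite.card_option]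
    apply Nat.card_congr
    exact
      { toFun := fun o => match o with
          | ⟨none, _⟩ => none
          | ⟨some a, ha⟩ => some ⟨a, ha⟩
        invFun := fun o => match o with
          | none => ⟨none, h⟩
          | some a => ⟨some a.1, a.2⟩
        left_inv := by
          rintro ⟨o, ho⟩
          cases o with
          | none => rfl
          | some a => rfl
        right_inv := by
          intro o
          cases o with
          | none => rfl
          | some a => rfl }
  · rw [if_neg h, add_zero]
    apply Nat.card_congr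
    exact
      { toFun := fun o => match o with
          | ⟨none, ho⟩ => absurd ho h
          | ⟨some a, ha⟩ => ⟨a, ha⟩
        invFun := fun a => ⟨some a.1, a.2⟩
        left_inv := by
          rintro ⟨o, ho⟩
          cases o with
          | none => exact absurd ho h
          | some a => rfl
        right_inv := by
          intro a
          rfl }

theorem num_addPoint [Finite E] (K : Cube X E) (v : Finset X) :
    K.addPoint.num v = K.num v + 1 := by
  unfold Cube.num
  rw [Nat.card_congr (quotEquiv K v), Finite.card_option]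

theorem ones_addPoint [Finite E] (a : K.addPoint.Gen) :
    K.addPoint.ones a = K.ones (res a) + (if a.s none = true then 1 else 0) := by
  classical
  unfold Cube.ones
  let p : Option (Quot (K.same a.v)) → Prop := fun o => match o with
    | none => a.s none = true
    | some z => ∃ x, Quot.mk _ x = z ∧ a.s (some x) = true
  have h1 : Nat.card {z : Quot (K.addPoint.same a.v) // ∃ x, Quot.mk _ x = z ∧ a.s x = true} =
      Nat.card {o // p o} := by
    apply Nat.card_congr
    refine (quotEquiv K a.v).subtypeEquiv ?_
    rintro ⟨y⟩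
    constructor
    · rintro ⟨x, hx, hs⟩
      have hx' : quotEquiv K a.v (Quot.mk _ x) = quotEquiv K a.v (Quot.mk _ y) :=
        congrArg _ hx
      change p (quotEquiv K a.v (Quot.mk _ y))
      rw [← hx']
      cases x with
      | none => exact hs
      | some x => exact ⟨x, rfl, hs⟩
    · intro h
      cases y with
      | none => exact ⟨none, rfl, h⟩
      | some y =>
        obtain ⟨x, hx, hs⟩ := h
        refine ⟨some x, ?_, hs⟩
        exact congrArg (Quot.map (rb := K.addPoint.same a.v) some (fun _ _ h => h)) hx
  rw [h1, card_opt p]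
  rfl

theorem gr_addPoint [Finite E] (a : K.addPoint.Gen) :
    K.addPoint.gr a = K.gr (res a) + (if a.s none = true then 1 else -1) := by
  unfold Cube.gr
  rw [ones_addPoint, num_addPoint]
  have : (res a).v = a.v := rfl
  rw [this]
  split_ifs <;> push_cast <;> ring

/-! ### transport of based complexes -/

/-- the equivalence of chain spaces given by a bijection of generators -/
noncomputable def lin (B B' : Based) (ε : B.Γ ≃ B'.Γ) :
    (B.Γ → ZMod 2) ≃ₗ[ZMod 2] (B'.Γ → ZMod 2) :=
  LinearEquiv.funCongrLeft (ZMod 2) (ZMod 2) ε.symm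

theorem lin_apply (B B' : Based) (ε : B.Γ ≃ B'.Γ) (φ : B.Γ → ZMod 2) (y : B'.Γ) :
    lin B B' ε φ y = φ (ε.symm y) := rfl

theorem d_apply (B : Based) [hf : Fintype B.Γ] [∀ x y, Decidable (B.coef x y)]
    (φ : B.Γ → ZMod 2) (y : B.Γ) : B.d φ y = ∑ x, if B.coef x y then φ x else 0 := by
  have h : hf = @Fintype.ofFinite B.Γ B.fin := Subsingleton.elim _ _
  subst h
  unfold Based.d
  simp only [LinearMap.coe_mk, AddHom.coe_mk]
  refine Finset.sum_congr rfl (fun x _ => ?_)
  by_cases h : B.coef x y
  · simp [h]
  · simp [h]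

theorem lin_d (B B' : Based) (ε : B.Γ ≃ B'.Γ)
    (hc : ∀ x y, B'.coef (ε x) (ε y) ↔ B.coef x y) (φ : B.Γ → ZMod 2) :
    lin B B' ε (B.d φ) = B'.d (lin B B' ε φ) := by
  classical
  have := B.fin
  have := B'.fin
  have := Fintype.ofFinite B.Γ
  have := Fintype.ofFinite B'.Γ
  funext y
  rw [lin_apply, d_apply, d_apply]
  refine Fintype.sum_equiv ε _ _ (fun x => ?_)
  have h := hc x (ε.symm y)
  rw [Equiv.apply_symm_apply] at h
  rw [lin_apply, Equiv.symm_apply_apply]
  by_cases h1 : B.coef x (ε.symm y)
  · rw [if_pos h1, if_pos (h.mpr h1)]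
  · rw [if_neg h1, if_neg (fun h2 => h1 (h.mp h2))]

theorem lin_G (B B' : Based) (ε : B.Γ ≃ B'.Γ) (hh : ∀ x, B'.h (ε x) = B.h x)
    (hq : ∀ x, B'.q (ε x) = B.q x) (a b : ℤ) (φ : B.Γ → ZMod 2) :
    φ ∈ B.G a b ↔ lin B B' ε φ ∈ B'.G a b := by
  constructor
  · intro h y hy
    rw [lin_apply] at hy
    have h1 := h _ hy
    have h2 := hh (ε.symm y)
    have h3 := hq (ε.symm y)
    rw [Equiv.apply_symm_apply] at h2 h3
    rw [h2, h3]
    exact h1
  · intro h x hx
    have h1 := h (ε x) (by rw [lin_apply, Equiv.symm_apply_apply]; exact hx)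
    rw [hh, hq] at h1
    exact h1

theorem page_based (B B' : Based) (ε : B.Γ ≃ B'.Γ) (hh : ∀ x, B'.h (ε x) = B.h x)
    (hq : ∀ x, B'.q (ε x) = B.q x) (hc : ∀ x y, B'.coef (ε x) (ε y) ↔ B.coef x y)
    (k : ℕ) (h q : ℤ) : Nonempty (B.PageHQ k h q ≃ₗ[ZMod 2] B'.PageHQ k h q) :=
  A2.page_congr B.fc B'.fc (lin B B' ε) (lin_d B B' ε hc)
    (fun a b φ => lin_G B B' ε hh hq a b φ) k h (q - 2 * h)

/-- the splitting of chain spaces given by a bijection with `Γ × Bool` -/
noncomputable def spl (B B' : Based) (ε : B.Γ ≃ B'.Γ × Bool) :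
    (B.Γ → ZMod 2) ≃ₗ[ZMod 2] (B'.Γ → ZMod 2) × (B'.Γ → ZMod 2) where
  toFun φ := (fun g => φ (ε.symm (g, false)), fun g => φ (ε.symm (g, true)))
  map_add' φ ψ := rfl
  map_smul' r φ := rfl
  invFun p := fun x => if (ε x).2 = true then p.2 (ε x).1 else p.1 (ε x).1
  left_inv φ := by
    funext x
    by_cases h : (ε x).2 = true
    · simp only [if_pos h]
      have : ((ε x).1, true) = ε x := by rw [← h]
      rw [this, Equiv.symm_apply_apply]
    · simp only [if_neg h]
      have : ((ε x).1, false) = ε x := by
        rw [Bool.not_eq_true] at h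
        rw [← h]
      rw [this, Equiv.symm_apply_apply]
  right_inv p := by
    refine Prod.ext ?_ ?_
    · funext g
      simp
    · funext g
      simp

theorem spl_d (B B' : Based) (ε : B.Γ ≃ B'.Γ × Bool)
    (hc : ∀ x y, B.coef x y ↔ (ε x).2 = (ε y).2 ∧ B'.coef (ε x).1 (ε y).1)
    (φ : B.Γ → ZMod 2) :
    spl B B' ε (B.d φ) = (B'.d (spl B B' ε φ).1, B'.d (spl B B' ε φ).2) := by
  classical
  have := B.fin
  have := B'.fin
  have := Fintype.ofFinite B.Γ
  have := Fintype.ofFinite B'.Γ
  have key : ∀ (g : B'.Γ) (l : Bool), B.d φ (ε.symm (g, l)) =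
      ∑ x : B'.Γ, if B'.coef x g then φ (ε.symm (x, l)) else 0 := by
    intro g l
    rw [d_apply]
    have h1 : (∑ x : B.Γ, if B.coef x (ε.symm (g, l)) then φ x else 0) =
        ∑ p : B'.Γ × Bool, if p.2 = l ∧ B'.coef p.1 g then φ (ε.symm p) else 0 := by
      refine Fintype.sum_equiv ε _ _ (fun x => ?_)
      have h := hc x (ε.symm (g, l))
      rw [Equiv.apply_symm_apply] at h
      rw [Equiv.symm_apply_apply]
      by_cases h1 : B.coef x (ε.symm (g, l))
      · rw [if_pos h1, if_pos (h.mp h1)]
      · rw [if_neg h1, if_neg (fun h2 => h1 (h.mpr h2))]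
    rw [h1, Fintype.sum_prod_type]
    refine Finset.sum_congr rfl (fun x _ => ?_)
    rw [Fintype.sum_bool]
    cases l <;> simp
  refine Prod.ext ?_ ?_
  · funext g
    change B.d φ (ε.symm (g, false)) = B'.d (spl B B' ε φ).1 g
    rw [key g false, d_apply B']
    rfl
  · funext g
    change B.d φ (ε.symm (g, true)) = B'.d (spl B B' ε φ).2 g
    rw [key g true, d_apply B']
    rfl

theorem spl_G (B B' : Based) (ε : B.Γ ≃ B'.Γ × Bool) (hh : ∀ x, B.h x = B'.h (ε x).1)
    (hq : ∀ x, B.q x = B'.q (ε x).1 + (if (ε x).2 = true then 1 else -1)) (a b : ℤ)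
    (φ : B.Γ → ZMod 2) : φ ∈ B.G a b ↔
      (spl B B' ε φ).1 ∈ B'.G a (b + 1) ∧ (spl B B' ε φ).2 ∈ B'.G a (b + (-1)) := by
  constructor
  · intro h
    refine ⟨fun g hg => ?_, fun g hg => ?_⟩
    · have h1 := h (ε.symm (g, false)) hg
      rw [hh, hq, Equiv.apply_symm_apply] at h1
      simp only [Bool.false_eq_true, if_false] at h1
      exact ⟨h1.1, by linarith [h1.2]⟩
    · have h1 := h (ε.symm (g, true)) hg
      rw [hh, hq, Equiv.apply_symm_apply] at h1
      simp only [if_true] at h1
      exact ⟨h1.1, by linarith [h1.2]⟩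
  · rintro ⟨h1, h2⟩ x hx
    rw [hh, hq]
    by_cases h : (ε x).2 = true
    · have e : ((ε x).1, true) = ε x := by rw [← h]
      have h3 := h2 (ε x).1 (by
        change φ (ε.symm ((ε x).1, true)) ≠ 0
        rw [e, Equiv.symm_apply_apply]; exact hx)
      rw [if_pos h]
      exact ⟨h3.1, by linarith [h3.2]⟩
    · have e : ((ε x).1, false) = ε x := by
        rw [Bool.not_eq_true] at h
        rw [← h]
      have h3 := h1 (ε x).1 (by
        change φ (ε.symm ((ε x).1, false)) ≠ 0
        rw [e, Equiv.symm_apply_apply]; exact hx)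
      rw [if_neg h]
      exact ⟨h3.1, by linarith [h3.2]⟩

/-- generators of the cube and generators of `addPoint` with label `x` at the new circle -/
def genEquiv (K : Cube X E) : K.Gen ≃ {g : K.addPoint.Gen // g.s none = false} where
  toFun a := ⟨ext a false, rfl⟩
  invFun g := res g.1
  left_inv a := res_ext a false
  right_inv g := by
    apply Subtype.ext
    have h := ext_res g.1
    rw [g.2] at h
    exact h

/-- generators of `addPoint` = generators with a label of the new circle -/
def genSplit (K : Cube X E) (P : E) : {g : K.addPoint.Gen // g.s (some P) = false} ≃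
    {g : K.Gen // g.s P = false} × Bool where
  toFun g := (⟨res g.1, g.2⟩, g.1.s none)
  invFun p := ⟨ext p.1.1 p.2, p.1.2⟩
  left_inv g := by
    apply Subtype.ext
    exact ext_res g.1
  right_inv p := rfl

theorem gr_ext_false [Finite E] (x : K.Gen) : K.addPoint.gr (ext x false) = K.gr x - 1 := by
  rw [gr_addPoint]
  have e1 : (ext x false).s none = false := rfl
  rw [e1, res_ext]
  simp only [Bool.false_eq_true, if_false]
  ring

/-- the complex of `D` is the reduced complex of `D ⊔ U` with basepoint on `U` -/
theorem full_congr [Finite X] [Finite E] (K : Cube X E) (s0 : Bool) (np nm : ℤ) (k : ℕ)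
    (h q : ℤ) : Nonempty ((K.full s0 np nm).PageHQ k h q ≃ₗ[ZMod 2]
      (K.addPoint.reduced s0 np nm none).PageHQ k h q) := by
  refine page_based _ _ (genEquiv K) (fun x => rfl) (fun x => ?_) (fun x y => ?_) k h q
  · have h1 : ∀ x : K.Gen, K.addPoint.gr (ext x false) + ((ext x false).v.card : ℤ) + np -
        2 * nm + 1 = K.gr x + (x.v.card : ℤ) + np - 2 * nm := by
      intro x
      have e2 : (ext x false).v = x.v := rfl
      rw [gr_ext_false, e2]
      ring
    exact h1 x
  · change K.addPoint.Coef s0 (ext x false) (ext y false) ↔ K.Coef s0 x y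
    rw [coef_iff]
    exact ⟨fun h => h.2, fun h => ⟨rfl, h⟩⟩

/-- the reduced complex of `D ⊔ U` with basepoint on `D` -/
theorem red_split [Finite X] [Finite E] (K : Cube X E) (s0 : Bool) (np nm : ℤ) (P : E) (k : ℕ)
    (h q : ℤ) : Nonempty ((K.addPoint.reduced s0 np nm (some P)).PageHQ k h q ≃ₗ[ZMod 2]
      (K.reduced s0 np nm P).PageHQ k h (q + 1) × (K.reduced s0 np nm P).PageHQ k h (q - 1)) := by
  have h1 := A2.page_prod (K.addPoint.reduced s0 np nm (some P)).fc (K.reduced s0 np nm P).fc
    (K.reduced s0 np nm P).fc (spl _ _ (genSplit K P)) 1 (-1)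
    (spl_d (K.addPoint.reduced s0 np nm (some P)) (K.reduced s0 np nm P) (genSplit K P)
      (fun x y => by
        change K.addPoint.Coef s0 x.1 y.1 ↔ _
        rw [coef_iff]
        rfl))
    (spl_G (K.addPoint.reduced s0 np nm (some P)) (K.reduced s0 np nm P) (genSplit K P)
      (fun x => rfl) (fun x => by
        change K.addPoint.gr x.1 + (x.1.v.card : ℤ) + np - 2 * nm + 1 =
          (K.gr (res x.1) + (x.1.v.card : ℤ) + np - 2 * nm + 1) +
            (if x.1.s none = true then 1 else -1)
        rw [gr_addPoint]
        ring)) k h (q - 2 * h)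
  have e1 : q - 2 * h + 1 = (q + 1) - 2 * h := by ring
  have e2 : q - 2 * h + (-1) = (q - 1) - 2 * h := by ring
  rw [e1, e2] at h1
  exact h1

/-- `d² = 0` for the full complex follows from the reduced complex of `D ⊔ U` -/
theorem full_dd [Finite X] [Finite E] (K : Cube X E) (s0 : Bool) (np nm : ℤ)
    (h : ∀ φ, (K.addPoint.reduced s0 np nm none).d
      ((K.addPoint.reduced s0 np nm none).d φ) = 0) :
    ∀ φ, (K.full s0 np nm).d ((K.full s0 np nm).d φ) = 0 := by
  intro φ
  have hc : ∀ x y, (K.addPoint.reduced s0 np nm none).coef (genEquiv K x) (genEquiv K y) ↔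
      (K.full s0 np nm).coef x y := by
    intro x y
    change K.addPoint.Coef s0 (ext x false) (ext y false) ↔ K.Coef s0 x y
    rw [coef_iff]
    exact ⟨fun h => h.2, fun h => ⟨rfl, h⟩⟩
  have h1 := lin_d (K.full s0 np nm) (K.addPoint.reduced s0 np nm none) (genEquiv K) hc
  apply (lin (K.full s0 np nm) (K.addPoint.reduced s0 np nm none) (genEquiv K)).injective
  rw [h1, h1, h, map_zero]

end A1

end Pool.Agent.helper20.Sz
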